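import Mathlib
import Pool.Agent.MPa0a75b.Statement
import Pool.Agent.MPa0a75b.Bridge
import Pool.Agent.MPa0a75b.Model

set_option autoImplicit false

namespace Pool.Agent.Results.MP_a0a75b_an.NotGroupVN

open Pool.Agent.MPa0a75b

universe u v w t

theorem result :
    (∃ (R : Type) (_ : CStarAlgebra R) (τ : TracialVN R), τ.IsHyperfinite) ∧
    ∀ (R : Type u) [CStarAlgebra R] (τ : TracialVN R), τ.IsHyperfinite →
      ∀ ω : Ultrafilter ℕ, (∀ n : ℕ, {n} ∉ ω) →
        (∃ (M : Type u) (_ : Ring M) (_ : StarRing M) (_ : Algebra ℂ M) (π : (ℕ → R) → M),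
          IsUltrapowerMap τ ω π) ∧
        ∀ (M : Type v) [Ring M] [StarRing M] [Algebra ℂ M] (π : (ℕ → R) → M),
          IsUltrapowerMap τ ω π →
          ∀ (G : Type w) [Group G] (H : Type t) [NormedAddCommGroup H] [InnerProductSpace ℂ H]
            [CompleteSpace H] (b : HilbertBasis G ℂ H),
            ¬ IsGroupVonNeumann M b :=
  ⟨exists_isHyperfinite, fun _ _ τ hR ω hω =>
    ⟨exists_isUltrapowerMap τ ω, fun _ _ _ _ _ hπ _ _ _ _ _ _ b =>
      not_isGroupVonNeumann hR hω hπ b⟩⟩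

end Pool.Agent.Results.MP_a0a75b_an.NotGroupVN
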